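import Pool.Agent.X103.Rw.D

/-!
# Limits of eigenfunctions: Gaussian integration by parts at infinity suffices (MP_a52643_an)

After rescaling by the square root of the eigenvalue, the local limits of Laplace eigenfunctions
of a surface are stationary random fields `F` on the plane with smooth samples, `ΔF + F = 0` and
`E F(0)² < ∞`, and the limits of the laws `(φ_j)_* μ` are the laws of `F(0)`. The theorem is about
all such fields. For a random variable `Z` the correlation `y ↦ E F(y) Z` has the natural size
`|y|^(-1/2)`: if it is smaller in the mean square sense, along some sequence of radii, then it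
vanishes identically. As a consequence Gaussian integration by parts for the field, and therefore
the Gaussian law, follows from its asymptotic form at infinity.
-/

set_option autoImplicit false
open MeasureTheory Filter Topology
open scoped ContDiff ENNReal

namespace Pool.Agent.Results.MP_a52643_an.AsymptoticGaussianCriterion

noncomputable section

/-- the plane -/
abbrev Plane : Type := EuclideanSpace ℝ (Fin 2)

/-- the Laplacian `∂_0² + ∂_1²` of the plane -/
def laplacian (f : Plane → ℝ) (y : Plane) : ℝ :=
  ∑ i, fderiv ℝ (fun z => fderiv ℝ f z (EuclideanSpace.single i 1)) y (EuclideanSpace.single i 1)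

/-- `F` is a stationary random field on the plane with smooth samples, `ΔF + F = 0` and
`E F(0)² < ∞`. Stationary means: the shifted field has the same law, in the product of copies of
`ℝ` indexed by the points of the plane. -/
structure IsStationaryWave {S : Type*} [MeasurableSpace S] (P : Measure S)
    (F : S → Plane → ℝ) : Prop where
  prob : IsProbabilityMeasure P
  measurable : ∀ y, Measurable fun s => F s y
  smooth : ∀ s, ContDiff ℝ ∞ (F s)
  eigen : ∀ s y, laplacian (F s) y + F s y = 0
  stationary : ∀ x : Plane, P.map (fun s y => F s (y + x)) = P.map (fun s y => F s y)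
  moment : Integrable (fun s => F s 0 ^ 2) P

variable {S : Type*} [MeasurableSpace S]

/-- the correlation `E F(y) Z` of the field with a random variable -/
def corr (P : Measure S) (F : S → Plane → ℝ) (Z : S → ℝ) (y : Plane) : ℝ :=
  ∫ s, F s y * Z s ∂P

/-- the linear statistic `Z = ∑ t_j F(x_j)` -/
def linear (F : S → Plane → ℝ) {n : ℕ} (x : Fin n → Plane) (t : Fin n → ℝ) (s : S) : ℝ :=
  ∑ j, t j * F s (x j)

/-- `F` is a centred Gaussian field: `E exp(iZ) = exp(-E Z² / 2)` for all linear statistics -/
def IsGaussian (P : Measure S) (F : S → Plane → ℝ) : Prop :=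
  ∀ (n : ℕ) (x : Fin n → Plane) (t : Fin n → ℝ),
    ∫ s, Real.cos (linear F x t s) ∂P = Real.exp (-(∫ s, linear F x t s ^ 2 ∂P) / 2) ∧
      ∫ s, Real.sin (linear F x t s) ∂P = 0

/-- the square of the modulus of the defect of Gaussian integration by parts,
`E F(y) exp(iZ) - i E F(y) Z · E exp(iZ)` -/
def defect (P : Measure S) (F : S → Plane → ℝ) (Z : S → ℝ) (y : Plane) : ℝ :=
  (corr P F (fun s => Real.cos (Z s)) y + (∫ s, Real.sin (Z s) ∂P) * corr P F Z y) ^ 2 +
    (corr P F (fun s => Real.sin (Z s)) y - (∫ s, Real.cos (Z s) ∂P) * corr P F Z y) ^ 2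

/-- `liminf (1/R) ∫_{|y| < R} g(y) dy = 0` for a function `g ≥ 0`; for `g = h²` this holds if
`h(y) = o(|y|^(-1/2))` -/
def MeanVanishes (g : Plane → ℝ) : Prop :=
  ∀ ε : ℝ, 0 < ε → ∀ R₀ : ℝ, ∃ R, R₀ ≤ R ∧ ∫ y in Metric.ball (0 : Plane) R, g y ≤ ε * R

/-- the law of the field is invariant under the isometries fixing the origin -/
def IsIsotropic (P : Measure S) (F : S → Plane → ℝ) : Prop :=
  ∀ ρ : Plane ≃ₗᵢ[ℝ] Plane, P.map (fun s y => F s (ρ y)) = P.map (fun s y => F s y)

/-- the Bessel function `J₀(r)`, the average of `cos (r cos θ)` -/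
def besselJ0 (r : ℝ) : ℝ := ∫ t in (0 : ℝ)..1, Real.cos (r * Real.cos (2 * Real.pi * t))

open Pool.Agent.X103.Rw

lemma corr_eq (P : Measure S) (F : S → Plane → ℝ) (Z : S → ℝ) (y : Plane) :
    corr P F Z y = Cr P F Z y := by
  unfold corr Cr
  congr 1; funext s; ring

/-- **Correlations with a stationary wave, and Gaussian waves.**

1. There is a constant `C` such that for every stationary wave `F`, every random variable `Z` with
`E Z² < ∞`, every point `y` and `R ≥ 1`, `(E F(y) Z)² ≤ C/R ∫_{|x - y| < R} (E F(x) Z)² dx`; so if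
`(E F(y) Z)²` vanishes in the mean at infinity then `E F(y) Z = 0` for all `y`.
2. If for a linear statistic `Z` the defect of Gaussian integration by parts of all multiples `uZ`
vanishes in the mean at infinity, then `Z` has a centred normal law.
3. `F` is Gaussian if and only if the defects of all linear statistics vanish in the mean at
infinity, and then they vanish identically.
4. If moreover `F` is isotropic, then `E F(x) Φ(F(0)) = J₀(|x|) E F(0) Φ(F(0))` for all `x` and
all `Φ` with `E Φ(F(0))² < ∞`, that is, `E[F(x) | F(0)] = J₀(|x|) F(0)`. -/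
theorem result :
    (∃ C : ℝ, 0 < C ∧ ∀ (S : Type) [MeasurableSpace S] (P : Measure S) (F : S → Plane → ℝ),
      IsStationaryWave P F → ∀ Z : S → ℝ, Measurable Z → Integrable (fun s => Z s ^ 2) P →
        ∀ (y : Plane) (R : ℝ), 1 ≤ R →
          corr P F Z y ^ 2 ≤ C / R * ∫ x in Metric.ball y R, corr P F Z x ^ 2) ∧
    ∀ (S : Type) [MeasurableSpace S] (P : Measure S) (F : S → Plane → ℝ),
      IsStationaryWave P F →
      (∀ Z : S → ℝ, Measurable Z → Integrable (fun s => Z s ^ 2) P →
        MeanVanishes (fun y => corr P F Z y ^ 2) → ∀ y, corr P F Z y = 0) ∧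
      (∀ (n : ℕ) (x : Fin n → Plane) (t : Fin n → ℝ),
        (∀ u : ℝ, MeanVanishes (defect P F fun s => u * linear F x t s)) →
        P.map (linear F x t) =
          ProbabilityTheory.gaussianReal 0 (∫ s, linear F x t s ^ 2 ∂P).toNNReal) ∧
      (IsGaussian P F ↔ ∀ (n : ℕ) (x : Fin n → Plane) (t : Fin n → ℝ),
        MeanVanishes (defect P F (linear F x t))) ∧
      (IsGaussian P F → ∀ (n : ℕ) (x : Fin n → Plane) (t : Fin n → ℝ) (y : Plane),
        defect P F (linear F x t) y = 0) ∧
      (IsIsotropic P F → ∀ Φ : ℝ → ℝ, Measurable Φ → Integrable (fun s => Φ (F s 0) ^ 2) P →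
        ∀ x : Plane, ∫ s, F s x * Φ (F s 0) ∂P =
          besselJ0 ‖x‖ * ∫ s, F s 0 * Φ (F s 0) ∂P) := by
  obtain ⟨C, C0, hC⟩ := rellich
  have mvf : ∀ {S : Type} [MeasurableSpace S] {P : Measure S} {F : S → Plane → ℝ},
      IsStationaryWave P F → MV P F := by
    intro S _ P F hF
    have := hF.prob
    exact mv_field hF.measurable hF.smooth hF.eigen hF.stationary hF.moment
  refine ⟨⟨C, C0, fun S _ P F hF Z mZ iZ y R hR => ?_⟩, fun S _ P F hF => ?_⟩
  · have := hF.prob
    simp only [corr_eq]
    exact hC (mvf hF) mZ iZ y R hR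
  have := hF.prob
  have M := mvf hF
  have dd : ∀ (Z : S → ℝ) (y : Plane), defect P F Z y = Dc P F Z y ^ 2 + Ds P F Z y ^ 2 :=
    fun Z y => rfl
  have gg : ∀ (n : ℕ) (x : Fin n → Plane) (t : Fin n → ℝ),
      (∀ u : ℝ, MeanVanishes (defect P F fun s => u * linear F x t s)) → ∀ u : ℝ,
      ∫ s, Real.cos (u * linear F x t s) ∂P =
        Real.exp (-(u ^ 2 * ∫ s, linear F x t s ^ 2 ∂P) / 2) ∧
      ∫ s, Real.sin (u * linear F x t s) ∂P = 0 := by
    intro n x t h u
    exact gauss M x t (fun u ε hε R₀ => h u ε hε R₀) u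
  refine ⟨fun Z mZ iZ h y => ?_, fun n x t h => ?_, ⟨fun hG n x t => ?_, fun h n x t => ?_⟩,
    fun hG n x t y => ?_, fun hI Φ mΦ iΦ x => ?_⟩
  · rw [corr_eq]
    refine dich M mZ iZ (fun ε hε R₀ => ?_) y
    obtain ⟨R, h1, h2⟩ := h ε hε R₀
    simp only [corr_eq] at h2
    exact ⟨R, h1, h2⟩
  · have mZ : Measurable (linear F x t) := Ln_meas M x t
    have V0 : 0 ≤ ∫ s, linear F x t s ^ 2 ∂P := integral_nonneg fun s => sq_nonneg _
    refine Measure.ext_of_charFun ?_
    funext u
    rw [ProbabilityTheory.charFun_gaussianReal, charFun_apply_real,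
      integral_map mZ.aemeasurable (by fun_prop)]
    have h1 := gg n x t h u
    have bi : ∀ f : S → ℝ, Measurable f → (∀ s, |f s| ≤ 1) → Integrable f P := fun f mf hf =>
      Integrable.mono' (integrable_const (1 : ℝ)) mf.aestronglyMeasurable
        (ae_of_all _ fun s => by rw [Real.norm_eq_abs]; exact hf s)
    have ic := bi (fun s => Real.cos (u * linear F x t s))
      (Real.measurable_cos.comp (mZ.const_mul u)) fun s => Real.abs_cos_le_one _
    have is := bi (fun s => Real.sin (u * linear F x t s))
      (Real.measurable_sin.comp (mZ.const_mul u)) fun s => Real.abs_sin_le_one _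
    have e : ∀ s, Complex.exp ((u : ℂ) * (linear F x t s : ℂ) * Complex.I) =
        ((Real.cos (u * linear F x t s) : ℝ) : ℂ) +
          ((Real.sin (u * linear F x t s) : ℝ) : ℂ) * Complex.I := by
      intro s
      rw [← Complex.ofReal_mul, Complex.exp_mul_I, Complex.ofReal_cos, Complex.ofReal_sin]
    simp only [e]
    rw [integral_add ic.ofReal (is.ofReal.mul_const _), integral_mul_const, integral_complex_ofReal,
      integral_complex_ofReal, h1.1, h1.2]
    simp only [Real.coe_toNNReal _ V0, Complex.ofReal_zero, zero_mul, add_zero, mul_zero]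
    rw [Complex.ofReal_exp]
    congr 1
    push_cast
    ring
  · intro ε hε R₀
    have z : ∀ y, defect P F (linear F x t) y = 0 := fun y => by
      have h1 := conv M hG x t y
      rw [dd]
      show Dc P F (Ln F x t) y ^ 2 + Ds P F (Ln F x t) y ^ 2 = 0
      rw [h1.1, h1.2]; ring
    refine ⟨max R₀ 0, le_max_left _ _, ?_⟩
    simp only [z]
    rw [integral_zero]
    positivity
  · have h1 := gg n x t (fun u => by
      have e : (fun s => u * linear F x t s) = linear F x (fun j => u * t j) := Ln_mul F x t u
      rw [e]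
      exact h n x _) 1
    simp only [one_mul, one_pow] at h1
    exact h1
  · have h1 := conv M hG x t y
    rw [dd]
    show Dc P F (Ln F x t) y ^ 2 + Ds P F (Ln F x t) y ^ 2 = 0
    rw [h1.1, h1.2]; ring
  · have h1 := iso_reg M hI mΦ iΦ x
    have e : ∀ z : Plane, ∫ s, F s z * Φ (F s 0) ∂P = ∫ s, Φ (F s 0) * F s z ∂P := fun z => by
      congr 1; funext s; ring
    rw [e, e]
    exact h1

end

end Pool.Agent.Results.MP_a52643_an.AsymptoticGaussianCriterion
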