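import Pool.Agent.X103.Rw.K

/-!
# Isotropic limits of eigenfunctions: correlation of the gradient with a distant value (MP_a52643_an)

After rescaling by the square root of the eigenvalue, the local limits of Laplace eigenfunctions
of a surface are stationary random fields `F` on the plane with smooth samples, `ΔF + F = 0` and
`E F(0)² < ∞`; seen in a random orthonormal frame they are isotropic. The limits of the laws
`(φ_j)_* μ` are the laws of `F(0)`. The theorem is about all such fields. The law of `F(0)` is
normal if and only if the correlation of the derivative `∂_i F(0)` with the value `F(y)` at one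
single point `y`, which may be as far away as one likes, does not depend on the value `F(0)`.
-/

set_option autoImplicit false
open MeasureTheory Filter Topology
open scoped ContDiff ENNReal

namespace Pool.Agent.Results.MP_a52643_an.GradientValueCorrelation

noncomputable section

/-- the plane -/
abbrev Plane : Type := EuclideanSpace ℝ (Fin 2)

/-- the partial derivative `∂_i` of the plane -/
def pd (i : Fin 2) (f : Plane → ℝ) (y : Plane) : ℝ :=
  fderiv ℝ f y (EuclideanSpace.single i 1)

/-- the Laplacian `∂_0² + ∂_1²` of the plane -/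
def laplacian (f : Plane → ℝ) (y : Plane) : ℝ := ∑ i, pd i (pd i f) y

/-- `F` is an isotropic stationary random field on the plane with smooth samples, `ΔF + F = 0` and
`E F(0)² < ∞`. Stationary and isotropic mean: the field shifted by `x`, and the field composed with
a linear isometry, have the same law, in the product of copies of `ℝ` indexed by the points of the
plane. -/
structure IsIsotropicWave {S : Type*} [MeasurableSpace S] (P : Measure S)
    (F : S → Plane → ℝ) : Prop where
  prob : IsProbabilityMeasure P
  measurable : ∀ y, Measurable fun s => F s y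
  smooth : ∀ s, ContDiff ℝ ∞ (F s)
  eigen : ∀ s y, laplacian (F s) y + F s y = 0
  stationary : ∀ x : Plane, P.map (fun s y => F s (y + x)) = P.map (fun s y => F s y)
  isotropic : ∀ ρ : Plane ≃ₗᵢ[ℝ] Plane, P.map (fun s y => F s (ρ y)) = P.map (fun s y => F s y)
  moment : Integrable (fun s => F s 0 ^ 2) P

/-- the Bessel function `J₁(r)`, the average of `cos θ sin (r cos θ)` -/
def besselJ1 (r : ℝ) : ℝ :=
  ∫ t in (0 : ℝ)..1, Real.cos (2 * Real.pi * t) * Real.sin (r * Real.cos (2 * Real.pi * t))

/-- the conditional expectation of `F(y) ∂_i F(0)` given `F(0)` is constant, in the form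
`E F(y) ∂_i F(0) exp(iuF(0)) = c E exp(iuF(0))` for all real `u` -/
def ConstantCorrelation {S : Type*} [MeasurableSpace S] (P : Measure S) (F : S → Plane → ℝ)
    (y : Plane) (i : Fin 2) : Prop := ∃ c : ℝ, ∀ u : ℝ,
  ∫ s, F s y * pd i (F s) 0 * Real.cos (u * F s 0) ∂P = c * ∫ s, Real.cos (u * F s 0) ∂P ∧
  ∫ s, F s y * pd i (F s) 0 * Real.sin (u * F s 0) ∂P = c * ∫ s, Real.sin (u * F s 0) ∂P

open Pool.Agent.X103.Rw in
/-- **Gradient and distant value.** Let `F` be an isotropic stationary wave on the plane.

1. `E F(y) ∂_i F(0) k'(F(0)) = J₁(|y|) (y_i / |y|) E F(0) k(F(0))` for all `y ≠ 0`, `i` and all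
smooth `k` with bounded derivative and `E k(F(0))² < ∞`.
2. Let `J₁(|y|) y_i ≠ 0`. Then `F(0)` has the law `N(0, E F(0)²)` if and only if the conditional
expectation of `F(y) ∂_i F(0)` given `F(0)` is constant. -/
theorem result (S : Type) [MeasurableSpace S] (P : Measure S) (F : S → Plane → ℝ)
    (hF : IsIsotropicWave P F) :
    (∀ k : ℝ → ℝ, ContDiff ℝ ∞ k → ∀ B : ℝ, (∀ z, |deriv k z| ≤ B) →
      Integrable (fun s => k (F s 0) ^ 2) P → ∀ y : Plane, y ≠ 0 → ∀ i : Fin 2,
      ∫ s, F s y * pd i (F s) 0 * deriv k (F s 0) ∂P =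
        besselJ1 ‖y‖ * (y i / ‖y‖) * ∫ s, F s 0 * k (F s 0) ∂P) ∧
    ∀ (y : Plane) (i : Fin 2), besselJ1 ‖y‖ * y i ≠ 0 →
      (P.map (fun s => F s 0) =
          ProbabilityTheory.gaussianReal 0 (∫ s, F s 0 ^ 2 ∂P).toNNReal ↔
        ConstantCorrelation P F y i) := by
  have := hF.prob
  have hJ1 : ∀ r, J1 r = -besselJ1 r := by
    intro r
    unfold J1 besselJ1
    exact intervalIntegral.integral_neg
  obtain ⟨h1, h2⟩ := field_crit (P := P) hF.measurable hF.smooth hF.eigen hF.stationary hF.moment
    hF.isotropic
  refine ⟨fun k hk B hB iK y hy i => ?_, fun y i hy => ?_⟩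
  · have h := h1 hk hB iK hy i
    rw [hJ1] at h
    have e : ∫ s, F s y * pd i (F s) 0 * deriv k (F s 0) ∂P =
        -(-besselJ1 ‖y‖ * (y i / ‖y‖)) * ∫ s, F s 0 * k (F s 0) ∂P := h
    rw [e]
    ring
  · rw [law_iff (hF.measurable 0)]
    exact h2 i (by rw [hJ1, neg_mul]; exact neg_ne_zero.2 hy)

end

end Pool.Agent.Results.MP_a52643_an.GradientValueCorrelation
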