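import Pool.Agent.X127.SW.Red
import Pool.Agent.X127.SW.Mxj
import Pool.Agent.Results.MP_4fa179_mp.StationaryWaves

/-!
# The maximal inequality in law for limit fields of eigenfunctions (MP_a52643_an)

After rescaling by the square root of the eigenvalue, the local limits of Laplace eigenfunctions
of a surface are stationary random fields on the plane with smooth samples, `ΔF + F = 0` and
`E F(0)² < ∞` (`IsStationaryWave` of the file `StationaryWaves` of MP_4fa179_mp, with `d = 2`), and
the limits of the laws `(φ_j)_* μ` are the laws of `F(0)`. The theorem is about all such fields in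
all dimensions.
-/

set_option autoImplicit false
open MeasureTheory Filter Topology
open scoped ContDiff ENNReal

namespace Pool.Agent.Results.MP_a52643_an.MaximalInequality

noncomputable section

open Pool.Agent.Results.MP_4fa179_mp.StationaryWaves (IsStationaryWave)
open Pool.Agent.X127.SW Pool.Agent.Y139.SW

/-- the maximum of `|f|` over the cube `|y_i| ≤ R` -/
def cubeMax {d : ℕ} (R : ℝ) (f : EuclideanSpace ℝ (Fin d) → ℝ) : ℝ :=
  sSup ((fun y => |f y|) '' {y : EuclideanSpace ℝ (Fin d) | ∀ i, |y i| ≤ R})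

lemma cube_compact {d : ℕ} (R : ℝ) :
    IsCompact {y : EuclideanSpace ℝ (Fin d) | ∀ i, |y i| ≤ R} := by
  refine IsCompact.of_isClosed_subset (isCompact_closedBall 0 (√(d * R ^ 2))) ?_ fun y hy => ?_
  · rw [Set.setOf_forall]
    exact isClosed_iInter fun i => isClosed_le (by fun_prop) continuous_const
  · rw [mem_closedBall_zero_iff]
    refine Real.le_sqrt_of_sq_le ?_
    rw [EuclideanSpace.norm_sq_eq]
    calc ∑ i, ‖y i‖ ^ 2 ≤ ∑ _i : Fin d, R ^ 2 := by
          refine Finset.sum_le_sum fun i _ => ?_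
          have := hy i
          rw [Real.norm_eq_abs]
          gcongr
      _ = d * R ^ 2 := by
          rw [Finset.sum_const, Finset.card_univ, Fintype.card_fin, nsmul_eq_mul]

/-- **The maximal inequality in law.** Let `F` be a stationary wave on `ℝ^d`.
(1) For every `r > 0`, every integer `n ≥ 1` and every even convex `Φ ≥ 0`, the maximum `m` of
`|F|` over the cube `|y_i| ≤ n r` satisfies `E Φ(m / (1 + 2r)^d) ≤ n^d E Φ(F(0))`.
(2) Almost surely there is a constant `C` with `F(y)² ≤ C (1 + |y|)^(d+1)` for all `y`. -/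
theorem result {d : ℕ} {S : Type*} [MeasurableSpace S] (P : Measure S)
    (F : S → EuclideanSpace ℝ (Fin d) → ℝ) (hF : IsStationaryWave P F) :
    (∀ (r : ℝ) (n : ℕ), 0 < r → 0 < n → ∀ Φ : ℝ → ℝ, ConvexOn ℝ Set.univ Φ →
      (∀ x, Φ (-x) = Φ x) → (∀ x, 0 ≤ Φ x) →
      ∫⁻ s, ENNReal.ofReal (Φ (cubeMax (n * r) (F s) / (1 + 2 * r) ^ d)) ∂P ≤
        (n : ℝ≥0∞) ^ d * ∫⁻ s, ENNReal.ofReal (Φ (F s 0)) ∂P) ∧
    ∀ᵐ s ∂P, ∃ C : ℝ, ∀ y : EuclideanSpace ℝ (Fin d),
      F s y ^ 2 ≤ C * (1 + ‖y‖) ^ (d + 1) := by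
  have := hF.prob
  obtain ⟨Ψ, mΨ, v1, hQ, hτ, W⟩ := red (P := P) hF.measurable hF.smooth hF.eigen
    hF.stationary hF.moment
  have m0 : Measurable fun f : Sp d => f.1 0 := W.sf.meas 0
  refine ⟨fun r n hr hn Φ cΦ ev Φ0 => ?_, ?_⟩
  · have cc := conv_cont cΦ
    obtain ⟨Y, mY, hY, iY⟩ := dom hτ hr hn cΦ ev Φ0 W
    have pt : ∀ s, ENNReal.ofReal (Φ (cubeMax (n * r) (F s) / (1 + 2 * r) ^ d)) ≤ Y (Ψ s) := by
      intro s
      have n0 : (0 : ℝ) ≤ n * r := by positivity
      obtain ⟨y, hy, hmax⟩ := (cube_compact (d := d) (n * r)).exists_sSup_image_eq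
        ⟨0, fun i => by simpa using n0⟩ (f := fun y => |F s y|)
        ((hF.smooth s).continuous.abs.continuousOn)
      have h := hY (Ψ s) y hy
      simp only [v1] at h
      unfold cubeMax
      rw [hmax]
      refine le_trans (le_of_eq ?_) h
      show ENNReal.ofReal (Φ (|F s y| / (1 + 2 * r) ^ d)) = _
      rcases abs_choice (F s y) with h1 | h1
      · rw [h1]
      · rw [h1, neg_div, ev]
    refine (lintegral_mono pt).trans ?_
    rw [← lintegral_map mY mΨ]
    refine iY.trans (le_of_eq ?_)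
    congr 1
    have m3 : Measurable fun f : Sp d => ENNReal.ofReal (Φ (f.1 0)) :=
      (cc.measurable.comp m0).ennreal_ofReal
    rw [lintegral_map m3 mΨ]
    simp only [v1]
  · have h := growth hτ W
    have h2 := mΨ.quasiMeasurePreserving P |>.ae h
    filter_upwards [h2] with s hs
    obtain ⟨C, hC⟩ := hs
    refine ⟨C, fun y => ?_⟩
    have := hC y
    rw [v1] at this
    exact this

end

end Pool.Agent.Results.MP_a52643_an.MaximalInequality
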