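import Pool.Agent.X127.SW.Red
import Pool.Agent.X127.SW.QS

/-!
# Limit laws of eigenfunctions on surfaces are quasi-symmetric (MP_a52643_an)

After rescaling by the square root of the eigenvalue, the local limits of Laplace eigenfunctions
of a surface are stationary random fields on the plane with smooth samples, `ΔF + F = 0` and
`E F(0)² < ∞`, and the limits of the laws `(φ_j)_* μ` are the laws of `F(0)`. The theorem is about
all such fields.
-/

set_option autoImplicit false
open MeasureTheory Filter Topology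
open scoped ContDiff ENNReal

namespace Pool.Agent.Results.MP_a52643_an.QuasiSymmetry

noncomputable section

/-- the plane -/
abbrev Plane : Type := EuclideanSpace ℝ (Fin 2)

/-- the Laplacian `∂_0² + ∂_1²` of the plane -/
def laplacian (f : Plane → ℝ) (y : Plane) : ℝ :=
  ∑ i, fderiv ℝ (fun z => fderiv ℝ f z (EuclideanSpace.single i 1)) y (EuclideanSpace.single i 1)

/-- `F` is a stationary random field on the plane with smooth samples, `ΔF + F = 0` and
`E F(0)² < ∞`. Stationary means: the shifted field has the same law, in the product of copies of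
`ℝ` indexed by the points of the plane. -/
structure IsStationaryWave {S : Type*} [MeasurableSpace S] (P : Measure S)
    (F : S → Plane → ℝ) : Prop where
  prob : IsProbabilityMeasure P
  measurable : ∀ y, Measurable fun s => F s y
  smooth : ∀ s, ContDiff ℝ ∞ (F s)
  eigen : ∀ s y, laplacian (F s) y + F s y = 0
  stationary : ∀ x : Plane, P.map (fun s y => F s (y + x)) = P.map (fun s y => F s y)
  moment : Integrable (fun s => F s 0 ^ 2) P

open Pool.Agent.X127.SW Pool.Agent.Y139.SW

/-- **Quasi-symmetry in law.** For a stationary wave on the plane and every convex `Φ ≥ 0`,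
`E Φ(2/5 F(0)) ≤ E Φ(-F(0))` and `E Φ(-2/5 F(0)) ≤ E Φ(F(0))`. A field which is bounded on one
side is bounded: if `F(0) ≥ -b` almost surely then `F(0) ≤ 5/2 b` almost surely, and
`E F(0)² ≤ 5/2 b²`. -/
theorem result {S : Type*} [MeasurableSpace S] (P : Measure S) (F : S → Plane → ℝ)
    (hF : IsStationaryWave P F) :
    (∀ Φ : ℝ → ℝ, ConvexOn ℝ Set.univ Φ → (∀ x, 0 ≤ Φ x) →
      ∫⁻ s, ENNReal.ofReal (Φ (2 / 5 * F s 0)) ∂P ≤ ∫⁻ s, ENNReal.ofReal (Φ (-F s 0)) ∂P ∧
      ∫⁻ s, ENNReal.ofReal (Φ (-(2 / 5 * F s 0))) ∂P ≤ ∫⁻ s, ENNReal.ofReal (Φ (F s 0)) ∂P) ∧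
    ∀ b : ℝ, (∀ᵐ s ∂P, -b ≤ F s 0) →
      (∀ᵐ s ∂P, F s 0 ≤ 5 / 2 * b) ∧ ∫ s, F s 0 ^ 2 ∂P ≤ 5 / 2 * b ^ 2 := by
  have := hF.prob
  obtain ⟨Ψ, mΨ, v1, hQ, hτ, W⟩ := red (P := P) hF.measurable hF.smooth hF.eigen
    hF.stationary hF.moment
  have m0 : Measurable fun f : Sp 2 => f.1 0 := W.sf.meas 0
  have tr : ∀ k : ℝ → ℝ, Continuous k → ∫⁻ f, ENNReal.ofReal (k (f.1 0)) ∂(P.map Ψ) =
      ∫⁻ s, ENNReal.ofReal (k (F s 0)) ∂P := by
    intro k hk
    have mk : Measurable (fun f : Sp 2 => ENNReal.ofReal (k (f.1 0))) :=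
      (hk.measurable.comp m0).ennreal_ofReal
    rw [lintegral_map mk mΨ]
    simp only [v1]
  have main : ∀ Φ : ℝ → ℝ, ConvexOn ℝ Set.univ Φ → (∀ x, 0 ≤ Φ x) →
      ∫⁻ s, ENNReal.ofReal (Φ (2 / 5 * F s 0)) ∂P ≤
        ∫⁻ s, ENNReal.ofReal (Φ (-F s 0)) ∂P := by
    intro Φ cΦ Φ0
    have cc := conv_cont cΦ
    have h := qsym hτ W cΦ Φ0
    rw [tr (fun x => Φ (2 / 5 * x)) (cc.comp (continuous_const.mul continuous_id)),
      tr (fun x => Φ (-x)) (cc.comp continuous_neg)] at h
    exact h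
  refine ⟨fun Φ cΦ Φ0 => ⟨main Φ cΦ Φ0, ?_⟩, fun b hb => ?_⟩
  · have cn : ConvexOn ℝ Set.univ fun x => Φ (-x) := by
      refine ⟨convex_univ, fun x _ y _ p q hp hq hpq => ?_⟩
      have := cΦ.2 (Set.mem_univ (-x)) (Set.mem_univ (-y)) hp hq hpq
      simp only [smul_eq_mul] at this ⊢
      rw [show -(p * x + q * y) = p * -x + q * -y by ring]
      exact this
    have h := main (fun x => Φ (-x)) cn fun x => Φ0 _
    simp only [neg_neg] at h
    exact h
  · have h := main (fun x => max (x - b) 0) (by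
      have h1 : ConvexOn ℝ Set.univ (fun x : ℝ => x - b) :=
        ⟨convex_univ, fun x _ y _ p q hp hq hpq => by
          simp only [smul_eq_mul]
          have : p * (x - b) + q * (y - b) = p * x + q * y - (p + q) * b := by ring
          rw [this, hpq, one_mul]⟩
      exact h1.sup (convexOn_const 0 convex_univ)) fun x => le_max_right _ _
    have z : ∫⁻ s, ENNReal.ofReal (max (-F s 0 - b) 0) ∂P = 0 := by
      have mz : Measurable fun s => ENNReal.ofReal (max (-F s 0 - b) 0) :=
        ((((hF.measurable 0).neg).sub measurable_const).max measurable_const).ennreal_ofReal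
      rw [lintegral_eq_zero_iff mz]
      filter_upwards [hb] with s hs
      show ENNReal.ofReal (max (-F s 0 - b) 0) = 0
      rw [max_eq_right (by linarith), ENNReal.ofReal_zero]
    have h2 : ∫⁻ s, ENNReal.ofReal (max (2 / 5 * F s 0 - b) 0) ∂P ≤ 0 := by
      rw [← z]; exact h
    rw [nonpos_iff_eq_zero] at h2
    have mz : Measurable fun s => ENNReal.ofReal (max (2 / 5 * F s 0 - b) 0) :=
      ((((hF.measurable 0).const_mul (2 / 5)).sub measurable_const).max
        measurable_const).ennreal_ofReal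
    rw [lintegral_eq_zero_iff mz] at h2
    have up : ∀ᵐ s ∂P, F s 0 ≤ 5 / 2 * b := by
      filter_upwards [h2] with s hs
      have h3 : ENNReal.ofReal (max (2 / 5 * F s 0 - b) 0) = 0 := hs
      rw [ENNReal.ofReal_eq_zero] at h3
      have := (le_max_left (2 / 5 * F s 0 - b) 0).trans h3
      linarith
    refine ⟨up, ?_⟩
    have iF : Integrable (fun s => F s 0) P := l2_l1 (hF.measurable 0) hF.moment
    have mean : ∫ s, F s 0 ∂P = 0 := by
      have h2 := W.mean hτ
      rw [integral_map mΨ.aemeasurable m0.aestronglyMeasurable] at h2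
      simp only [v1] at h2
      exact h2
    have pt : ∀ᵐ s ∂P, F s 0 ^ 2 ≤ 5 / 2 * b ^ 2 + 3 / 2 * b * F s 0 := by
      filter_upwards [hb, up] with s h3 h4
      nlinarith [mul_nonneg (by linarith : 0 ≤ F s 0 + b) (by linarith : 0 ≤ 5 / 2 * b - F s 0)]
    have h5 := integral_mono_ae hF.moment
      ((integrable_const (5 / 2 * b ^ 2)).add (iF.const_mul (3 / 2 * b))) pt
    have e : ∫ s, (5 / 2 * b ^ 2 + 3 / 2 * b * F s 0) ∂P = 5 / 2 * b ^ 2 := by
      rw [integral_add (integrable_const _) (iF.const_mul _),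
        integral_const_mul (3 / 2 * b) (fun s => F s 0), mean, mul_zero, add_zero]
      simp
    have h6 : ∫ s, F s 0 ^ 2 ∂P ≤ ∫ s, (5 / 2 * b ^ 2 + 3 / 2 * b * F s 0) ∂P := h5
    rw [e] at h6
    exact h6

end

end Pool.Agent.Results.MP_a52643_an.QuasiSymmetry
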